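import Pool.Agent.helper16.LW.Spec

set_option autoImplicit false

open Complex MeasureTheory

namespace Pool.Agent.LW

open Pool.Agent.ZD Pool.Agent.helper84.DM Pool.Agent.helper78.ED Pool.Agent.DH

theorem BNS_kap_le (x : ℝ) : kap x ≤ 1 := by
  unfold kap
  rw [div_le_one (by positivity)]
  nlinarith [sq_nonneg x]

theorem BNS_kap_nonneg (x : ℝ) : 0 ≤ kap x := by
  unfold kap
  positivity

theorem BNS_sum_kap (hK : KSM_stmt) (S : Finset ℤ) (j : ℤ) :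
    ∑ l ∈ S, kap ((j : ℝ) - l) ≤ 5 := by
  have h := (hK 1 (S.image fun l => j - l) one_pos).1
  rw [Finset.sum_image (by intro a _ b _ hab; exact sub_right_injective hab)] at h
  have e : ∀ l ∈ S, kap (1 * ((j - l : ℤ) : ℝ)) = kap ((j : ℝ) - l) := by
    intro l _
    rw [one_mul]
    push_cast
    rfl
  rw [Finset.sum_congr rfl e] at h
  norm_num at h
  exact h

theorem BNS_sum_kap' (hK : KSM_stmt) (S : Finset ℤ) (l : ℤ) :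
    ∑ j ∈ S, kap ((j : ℝ) - l) ≤ 5 := by
  refine le_trans (le_of_eq (Finset.sum_congr rfl fun j _ => ?_)) (BNS_sum_kap hK S l)
  unfold kap
  congr 1
  ring

theorem BNS (hH : H0B_stmt) (hS : S1B_stmt) (hM : MVF_stmt) (hK : KSM_stmt) : BNS_stmt := by
  obtain ⟨⟨C₀, hC₀, hz⟩, -, -, -⟩ := hH
  obtain ⟨C₂, hC₂, hM⟩ := hM
  intro ε hε
  obtain ⟨C₁, hC₁, hS⟩ := hS ε hε
  refine ⟨10 * C₀ ^ 2 + 2 * C₁ * C₂, by positivity, ?_⟩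
  intro J N a F hN hNJ hCo hF
  have hN' : (1 : ℝ) ≤ N := by exact_mod_cast hN
  have hJ' : (1 : ℝ) ≤ J := by exact_mod_cast hN.trans hNJ
  have hJε : (1 : ℝ) ≤ (J : ℝ) ^ ε := Real.one_le_rpow hJ' hε.le
  have hB : ∀ u : ℝ, ‖BX N u‖ ^ 2 ≤ 2 * C₀ ^ 2 * (N : ℝ) ^ 2 * kap u + 2 * ‖B1 N u‖ ^ 2 := by
    intro u
    have e : BX N u = h0 N u + B1 N u := by
      unfold B1
      ring
    have h1 : ‖BX N u‖ ≤ ‖h0 N u‖ + ‖B1 N u‖ := by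
      rw [e]
      exact norm_add_le _ _
    have h2 : ‖BX N u‖ ^ 2 ≤ 2 * ‖h0 N u‖ ^ 2 + 2 * ‖B1 N u‖ ^ 2 := by
      have : ‖BX N u‖ ^ 2 ≤ (‖h0 N u‖ + ‖B1 N u‖) ^ 2 := pow_le_pow_left₀ (norm_nonneg _) h1 2
      nlinarith [sq_nonneg (‖h0 N u‖ - ‖B1 N u‖)]
    have h3 : ‖h0 N u‖ ≤ C₀ * N * kap u := hz N u (by positivity)
    have h4 : ‖h0 N u‖ ^ 2 ≤ (C₀ * N * kap u) ^ 2 := pow_le_pow_left₀ (norm_nonneg _) h3 2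
    have h5 : (C₀ * N * kap u) ^ 2 ≤ C₀ ^ 2 * (N : ℝ) ^ 2 * kap u := by
      have : kap u * kap u ≤ 1 * kap u :=
        mul_le_mul_of_nonneg_right (BNS_kap_le u) (BNS_kap_nonneg u)
      have h6 : 0 ≤ C₀ ^ 2 * (N : ℝ) ^ 2 := by positivity
      calc (C₀ * N * kap u) ^ 2 = C₀ ^ 2 * (N : ℝ) ^ 2 * (kap u * kap u) := by ring
        _ ≤ C₀ ^ 2 * (N : ℝ) ^ 2 * (1 * kap u) := mul_le_mul_of_nonneg_left this h6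
        _ = C₀ ^ 2 * (N : ℝ) ^ 2 * kap u := by ring
    linarith
  -- first part
  have hP1 : ∑ j ∈ IJ J, ∑ l ∈ IJ J, F j * F l * (2 * C₀ ^ 2 * (N : ℝ) ^ 2 * kap ((j : ℝ) - l)) ≤
      10 * C₀ ^ 2 * (N : ℝ) ^ 2 * ∑ j ∈ IJ J, F j ^ 2 := by
    have h1 : ∀ j ∈ IJ J, ∀ l ∈ IJ J,
        F j * F l * (2 * C₀ ^ 2 * (N : ℝ) ^ 2 * kap ((j : ℝ) - l)) ≤
        C₀ ^ 2 * (N : ℝ) ^ 2 * (F j ^ 2 * kap ((j : ℝ) - l) + F l ^ 2 * kap ((j : ℝ) - l)) := by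
      intro j _ l _
      have h2 : F j * F l * 2 ≤ F j ^ 2 + F l ^ 2 := by nlinarith [sq_nonneg (F j - F l)]
      have h3 : 0 ≤ C₀ ^ 2 * (N : ℝ) ^ 2 * kap ((j : ℝ) - l) :=
        mul_nonneg (by positivity) (BNS_kap_nonneg _)
      calc F j * F l * (2 * C₀ ^ 2 * (N : ℝ) ^ 2 * kap ((j : ℝ) - l))
          = (F j * F l * 2) * (C₀ ^ 2 * (N : ℝ) ^ 2 * kap ((j : ℝ) - l)) := by ring
        _ ≤ (F j ^ 2 + F l ^ 2) * (C₀ ^ 2 * (N : ℝ) ^ 2 * kap ((j : ℝ) - l)) :=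
            mul_le_mul_of_nonneg_right h2 h3
        _ = _ := by ring
    have h2 : ∑ j ∈ IJ J, ∑ l ∈ IJ J,
        C₀ ^ 2 * (N : ℝ) ^ 2 * (F j ^ 2 * kap ((j : ℝ) - l) + F l ^ 2 * kap ((j : ℝ) - l)) =
        C₀ ^ 2 * (N : ℝ) ^ 2 * (∑ j ∈ IJ J, F j ^ 2 * ∑ l ∈ IJ J, kap ((j : ℝ) - l) +
          ∑ l ∈ IJ J, F l ^ 2 * ∑ j ∈ IJ J, kap ((j : ℝ) - l)) := by
      simp_rw [← Finset.mul_sum, Finset.sum_add_distrib]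
      congr 2
      · exact Finset.sum_congr rfl fun j _ => by rw [Finset.mul_sum]
      · rw [Finset.sum_comm]
        exact Finset.sum_congr rfl fun l _ => by rw [Finset.mul_sum]
    have h3 : ∑ j ∈ IJ J, F j ^ 2 * ∑ l ∈ IJ J, kap ((j : ℝ) - l) ≤ 5 * ∑ j ∈ IJ J, F j ^ 2 := by
      rw [Finset.mul_sum]
      refine Finset.sum_le_sum fun j _ => ?_
      rw [mul_comm (5 : ℝ)]
      exact mul_le_mul_of_nonneg_left (BNS_sum_kap hK _ j) (sq_nonneg _)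
    have h4 : ∑ l ∈ IJ J, F l ^ 2 * ∑ j ∈ IJ J, kap ((j : ℝ) - l) ≤ 5 * ∑ j ∈ IJ J, F j ^ 2 := by
      rw [Finset.mul_sum]
      refine Finset.sum_le_sum fun j _ => ?_
      rw [mul_comm (5 : ℝ)]
      exact mul_le_mul_of_nonneg_left (BNS_sum_kap' hK _ j) (sq_nonneg _)
    calc ∑ j ∈ IJ J, ∑ l ∈ IJ J, F j * F l * (2 * C₀ ^ 2 * (N : ℝ) ^ 2 * kap ((j : ℝ) - l))
        ≤ ∑ j ∈ IJ J, ∑ l ∈ IJ J,
          C₀ ^ 2 * (N : ℝ) ^ 2 * (F j ^ 2 * kap ((j : ℝ) - l) + F l ^ 2 * kap ((j : ℝ) - l)) :=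
          Finset.sum_le_sum fun j hj => Finset.sum_le_sum fun l hl => h1 j hj l hl
      _ = C₀ ^ 2 * (N : ℝ) ^ 2 * (∑ j ∈ IJ J, F j ^ 2 * ∑ l ∈ IJ J, kap ((j : ℝ) - l) +
          ∑ l ∈ IJ J, F l ^ 2 * ∑ j ∈ IJ J, kap ((j : ℝ) - l)) := h2
      _ ≤ C₀ ^ 2 * (N : ℝ) ^ 2 * (5 * ∑ j ∈ IJ J, F j ^ 2 + 5 * ∑ j ∈ IJ J, F j ^ 2) :=
          mul_le_mul_of_nonneg_left (add_le_add h3 h4) (by positivity)
      _ = 10 * C₀ ^ 2 * (N : ℝ) ^ 2 * ∑ j ∈ IJ J, F j ^ 2 := by ring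
  -- second part
  have hP2 : ∑ j ∈ IJ J, ∑ l ∈ IJ J, F j * F l * (2 * ‖B1 N ((j : ℝ) - l)‖ ^ 2) ≤
      2 * C₁ * C₂ * (J : ℝ) ^ ε * ((J : ℝ) ^ 2 * (N : ℝ) ^ 3) := by
    have hin : ∀ j ∈ IJ J, ∑ l ∈ IJ J, F j * F l * (2 * ‖B1 N ((j : ℝ) - l)‖ ^ 2) ≤
        F j * (2 * (C₁ * (J : ℝ) ^ ε * ((N : ℝ) * J * N))) := by
      intro j hj
      have hjJ : |(j : ℝ)| ≤ J := by
        rw [IJ, Finset.mem_Ioo] at hj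
        rw [abs_le]
        constructor
        · have : (-(J : ℤ) : ℤ) ≤ j := hj.1.le
          exact_mod_cast this
        · have : j ≤ (J : ℤ) := hj.2.le
          exact_mod_cast this
      have h1 := hS J N N j a hN hNJ le_rfl hjJ hCo
      have h2 : ∑ l ∈ IJ J, F l * ‖B1 N ((j : ℝ) - l)‖ ^ 2 ≤
          C₁ * (J : ℝ) ^ ε * ((N : ℝ) * J * N) := by
        refine le_trans (Finset.sum_le_sum fun l hl => ?_) h1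
        exact mul_le_mul_of_nonneg_right (hF l hl).2 (sq_nonneg _)
      calc ∑ l ∈ IJ J, F j * F l * (2 * ‖B1 N ((j : ℝ) - l)‖ ^ 2)
          = F j * (2 * ∑ l ∈ IJ J, F l * ‖B1 N ((j : ℝ) - l)‖ ^ 2) := by
            rw [Finset.mul_sum, Finset.mul_sum]
            exact Finset.sum_congr rfl fun l _ => by ring
        _ ≤ F j * (2 * (C₁ * (J : ℝ) ^ ε * ((N : ℝ) * J * N))) :=
            mul_le_mul_of_nonneg_left (by linarith) (hF j hj).1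
    have hsum : ∑ j ∈ IJ J, F j ≤ C₂ * J * N :=
      (Finset.sum_le_sum fun j hj => (hF j hj).2).trans (hM J N a hN hNJ hCo)
    calc ∑ j ∈ IJ J, ∑ l ∈ IJ J, F j * F l * (2 * ‖B1 N ((j : ℝ) - l)‖ ^ 2)
        ≤ ∑ j ∈ IJ J, F j * (2 * (C₁ * (J : ℝ) ^ ε * ((N : ℝ) * J * N))) :=
          Finset.sum_le_sum hin
      _ = (∑ j ∈ IJ J, F j) * (2 * (C₁ * (J : ℝ) ^ ε * ((N : ℝ) * J * N))) := by
          rw [Finset.sum_mul]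
      _ ≤ (C₂ * J * N) * (2 * (C₁ * (J : ℝ) ^ ε * ((N : ℝ) * J * N))) :=
          mul_le_mul_of_nonneg_right hsum (by positivity)
      _ = 2 * C₁ * C₂ * (J : ℝ) ^ ε * ((J : ℝ) ^ 2 * (N : ℝ) ^ 3) := by ring
  have hsumF : 0 ≤ ∑ j ∈ IJ J, F j ^ 2 := Finset.sum_nonneg fun j _ => sq_nonneg _
  calc ∑ j ∈ IJ J, ∑ l ∈ IJ J, F j * F l * ‖BX N ((j : ℝ) - l)‖ ^ 2
      ≤ ∑ j ∈ IJ J, ∑ l ∈ IJ J, (F j * F l * (2 * C₀ ^ 2 * (N : ℝ) ^ 2 * kap ((j : ℝ) - l)) +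
          F j * F l * (2 * ‖B1 N ((j : ℝ) - l)‖ ^ 2)) := by
        refine Finset.sum_le_sum fun j hj => Finset.sum_le_sum fun l hl => ?_
        rw [← mul_add]
        exact mul_le_mul_of_nonneg_left (hB _) (mul_nonneg (hF j hj).1 (hF l hl).1)
    _ = ∑ j ∈ IJ J, ∑ l ∈ IJ J, F j * F l * (2 * C₀ ^ 2 * (N : ℝ) ^ 2 * kap ((j : ℝ) - l)) +
          ∑ j ∈ IJ J, ∑ l ∈ IJ J, F j * F l * (2 * ‖B1 N ((j : ℝ) - l)‖ ^ 2) := by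
        simp_rw [Finset.sum_add_distrib]
    _ ≤ 10 * C₀ ^ 2 * (N : ℝ) ^ 2 * ∑ j ∈ IJ J, F j ^ 2 +
          2 * C₁ * C₂ * (J : ℝ) ^ ε * ((J : ℝ) ^ 2 * (N : ℝ) ^ 3) := add_le_add hP1 hP2
    _ ≤ (10 * C₀ ^ 2 + 2 * C₁ * C₂) * (J : ℝ) ^ ε *
          ((N : ℝ) ^ 2 * ∑ j ∈ IJ J, F j ^ 2 + (J : ℝ) ^ 2 * (N : ℝ) ^ 3) := by
        have h1 : 0 ≤ (N : ℝ) ^ 2 * ∑ j ∈ IJ J, F j ^ 2 := mul_nonneg (by positivity) hsumF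
        have h2 : 0 ≤ (J : ℝ) ^ 2 * (N : ℝ) ^ 3 := by positivity
        have h3 : 10 * C₀ ^ 2 * ((N : ℝ) ^ 2 * ∑ j ∈ IJ J, F j ^ 2) ≤
            10 * C₀ ^ 2 * ((J : ℝ) ^ ε * ((N : ℝ) ^ 2 * ∑ j ∈ IJ J, F j ^ 2)) :=
          mul_le_mul_of_nonneg_left (le_mul_of_one_le_left h1 hJε) (by positivity)
        have h4 : 0 ≤ 2 * C₁ * C₂ * (J : ℝ) ^ ε * ((N : ℝ) ^ 2 * ∑ j ∈ IJ J, F j ^ 2) := by
          positivity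
        have h5 : 0 ≤ 10 * C₀ ^ 2 * (J : ℝ) ^ ε * ((J : ℝ) ^ 2 * (N : ℝ) ^ 3) := by positivity
        nlinarith

end Pool.Agent.LW
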